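import Pool.Agent.R30.Mat.Final

set_option autoImplicit false

/-!
A maximal topological thrackle whose graph is a perfect matching with nine edges.

The drawing is polygonal; its planarization has 18 ends, 36 crossings and 29 faces (the data are
in `Pool/Agent/R30/Mat/Data.lean`). It was found by a computer search, and the finite checks are
evaluated by the kernel.
-/

namespace Pool.Agent.Results.MP_7161a7_co.MaximalMatchingThrackle

open Pool.Agent.R30.Thr

/-- There is a maximal thrackle whose graph, with `18` vertices and `9` edges, is a perfect
matching: every vertex has exactly one neighbour. -/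
theorem result : ∃ (G : SimpleGraph (Fin 18)) (T : Drawing G),
    T.IsMaximalThrackle ∧ (∀ v, ∃! w, G.Adj v w) ∧ G.edgeSet.ncard = 9 :=
  ⟨Pool.Agent.R30.Mat.G, Pool.Agent.R30.Mat.D, Pool.Agent.R30.Mat.D_maximal,
    Pool.Agent.R30.Mat.G_unique, Pool.Agent.R30.Mat.G_card⟩

end Pool.Agent.Results.MP_7161a7_co.MaximalMatchingThrackle
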